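import Mathlib

set_option autoImplicit false

open Finset

namespace Q119.DM

/-- the vertex space: three blocks of coordinates -/
abbrev W (t : Fin 3 → ℕ) := (g : Fin 3) → Fin (t g) → ZMod 2

/-- the colours: the coordinates -/
abbrev J (t : Fin 3 → ℕ) := Σ g : Fin 3, Fin (t g)

section

variable {t : Fin 3 → ℕ} {s : ℕ} (hs : ∀ g, s ≤ t g)

def restr (g : Fin 3) (a : Fin (t g) → ZMod 2) : Fin s → ZMod 2 :=
  fun i => a (Fin.castLE (hs g) i)

def ext (g : Fin 3) (τ : Fin s → ZMod 2) : Fin (t g) → ZMod 2 :=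
  fun i => if h : i.val < s then τ ⟨i.val, h⟩ else 0

lemma restr_ext (g : Fin 3) (τ : Fin s → ZMod 2) : restr hs g (ext g τ) = τ := by
  funext i
  simp [restr, ext]

lemma restr_add (g : Fin 3) (a b : Fin (t g) → ZMod 2) :
    restr hs g (a + b) = restr hs g a + restr hs g b := rfl

lemma restr_zero (g : Fin 3) : restr hs g (0 : Fin (t g) → ZMod 2) = 0 := rfl

lemma restr_sub (g : Fin 3) (a b : Fin (t g) → ZMod 2) :
    restr hs g (a - b) = restr hs g a - restr hs g b := rfl

def T (w : W t) : Fin s → ZMod 2 := ∑ g, restr hs g (w g)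

lemma T_add (w z : W t) : T hs (w + z) = T hs w + T hs z := by
  simp only [T, Pi.add_apply, restr_add, Finset.sum_add_distrib]

lemma T_single (g : Fin 3) (x : Fin (t g) → ZMod 2) :
    T hs (Pi.single g x) = restr hs g x := by
  unfold T
  rw [Finset.sum_eq_single g]
  · rw [Pi.single_eq_same]
  · intro b _ hb
    rw [Pi.single_eq_of_ne hb, restr_zero]
  · intro h
    exact absurd (Finset.mem_univ g) h

open Classical in
/-- pick a coordinate in the support, preferably `i₀` -/
noncomputable def pick {g : Fin 3} (a : Fin (t g) → ZMod 2) (i₀ : Fin (t g)) : Fin (t g) :=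
  if a i₀ ≠ 0 then i₀ else if h : ∃ i, a i ≠ 0 then h.choose else i₀

lemma pick_ne {g : Fin 3} (a : Fin (t g) → ZMod 2) (i₀ : Fin (t g)) (h : a ≠ 0) :
    a (pick a i₀) ≠ 0 := by
  unfold pick
  split_ifs with h1 h2
  · exact h1
  · exact h2.choose_spec
  · exact absurd (Function.ne_iff.1 h) h2

lemma pick_eq {g : Fin 3} (a : Fin (t g) → ZMod 2) (i₀ : Fin (t g)) (h : a i₀ ≠ 0) :
    pick a i₀ = i₀ := by
  unfold pick
  rw [if_pos h]

variable (lam : (Fin s → ZMod 2) → J t)

open Classical in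
/-- the colour of a difference vector -/
noncomputable def sel (w : W t) : J t :=
  if w (lam (T hs w)).1 ≠ 0 then
    ⟨(lam (T hs w)).1, pick (w (lam (T hs w)).1) (lam (T hs w)).2⟩
  else if h : ∃ q : J t, w q.1 q.2 ≠ 0 then h.choose else lam (T hs w)

lemma sel_ne (w : W t) (hw : w ≠ 0) : w (sel hs lam w).1 (sel hs lam w).2 ≠ 0 := by
  by_cases h1 : w (lam (T hs w)).1 ≠ 0
  · have h2 : sel hs lam w =
        ⟨(lam (T hs w)).1, pick (w (lam (T hs w)).1) (lam (T hs w)).2⟩ := by
      unfold sel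
      rw [if_pos h1]
    rw [h2]
    exact pick_ne _ _ h1
  · have h3 : ∃ q : J t, w q.1 q.2 ≠ 0 := by
      obtain ⟨g, hg⟩ := Function.ne_iff.1 hw
      obtain ⟨i, hi⟩ := Function.ne_iff.1 hg
      exact ⟨⟨g, i⟩, hi⟩
    have h2 : sel hs lam w = h3.choose := by
      unfold sel
      rw [if_neg h1, dif_pos h3]
    rw [h2]
    exact h3.choose_spec

/-- the regular way for `w` to get the colour `j` -/
def P (j : J t) (w : W t) : Prop :=
  ∃ i₀, lam (T hs w) = ⟨j.1, i₀⟩ ∧ w j.1 ≠ 0 ∧ pick (w j.1) i₀ = j.2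

lemma P_sel {j : J t} {w : W t} (h : P hs lam j w) : sel hs lam w = j := by
  obtain ⟨i₀, h1, h2, h3⟩ := h
  unfold sel
  rw [h1]
  simp only
  rw [if_pos h2, h3]

lemma P_of_sel {j : J t} {w : W t} (h : sel hs lam w = j) (hw : w (lam (T hs w)).1 ≠ 0) :
    P hs lam j w := by
  unfold sel at h
  rw [if_pos hw] at h
  obtain ⟨g, i⟩ := j
  rw [Sigma.mk.injEq] at h
  obtain ⟨h1, h2⟩ := h
  subst h1
  exact ⟨(lam (T hs w)).2, rfl, hw, eq_of_heq h2⟩

lemma P_add {j : J t} (w z : W t) (hz : T hs z = 0) (hz' : z j.1 = 0) :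
    P hs lam j (w + z) ↔ P hs lam j w := by
  unfold P
  have h1 : (w + z) j.1 = w j.1 := by rw [Pi.add_apply, hz', add_zero]
  rw [T_add, hz, add_zero, h1]

lemma third (g g' : Fin 3) : ∃ g'', g'' ≠ g ∧ g'' ≠ g' := by
  revert g g'
  decide

lemma third_all (g g' g'' x : Fin 3) (h : g ≠ g') (h1 : g'' ≠ g) (h2 : g'' ≠ g') :
    x = g ∨ x = g' ∨ x = g'' := by
  revert g g' g'' x
  decide

open Classical in
noncomputable def C (j : J t) (g' : Fin 3) (a : Fin (t g') → ZMod 2) : ℕ :=
  (Finset.univ.filter (fun w : W t => P hs lam j w ∧ w g' = a)).card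

lemma C_le (j : J t) (g' : Fin 3) (hg : g' ≠ j.1) (a a' : Fin (t g') → ZMod 2) :
    C hs lam j g' a ≤ C hs lam j g' a' := by
  classical
  obtain ⟨g'', h1, h2⟩ := third j.1 g'
  set z : W t := Pi.single g' (a' - a) + Pi.single g'' (ext g'' (restr hs g' (a - a'))) with hz
  have hTz : T hs z = 0 := by
    rw [hz, T_add, T_single, T_single, restr_ext, restr_sub, restr_sub]
    abel
  have hzj : z j.1 = 0 := by
    rw [hz, Pi.add_apply, Pi.single_eq_of_ne hg.symm, Pi.single_eq_of_ne h1.symm, add_zero]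
  have hzg : z g' = a' - a := by
    rw [hz, Pi.add_apply, Pi.single_eq_same, Pi.single_eq_of_ne h2.symm, add_zero]
  unfold C
  apply Finset.card_le_card_of_injOn (fun w => w + z)
  · intro w hw
    simp only [Finset.coe_filter, Finset.mem_univ, true_and] at hw ⊢
    refine ⟨(P_add hs lam w z hTz hzj).2 hw.1, ?_⟩
    rw [Pi.add_apply, hw.2, hzg]
    abel
  · intro x _ y _ h
    exact add_right_cancel h

lemma C_eq (j : J t) (g' : Fin 3) (hg : g' ≠ j.1) (a a' : Fin (t g') → ZMod 2) :
    C hs lam j g' a = C hs lam j g' a' :=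
  le_antisymm (C_le hs lam j g' hg a a') (C_le hs lam j g' hg a' a)

/-- if `a` vanishes at the coordinate `j` then no regular vector agrees with it -/
lemma C_zero (j : J t) (a : Fin (t j.1) → ZMod 2) (ha : a j.2 = 0) :
    C hs lam j j.1 a = 0 := by
  classical
  unfold C
  rw [Finset.card_eq_zero, Finset.filter_eq_empty_iff]
  rintro w _ ⟨⟨i₀, _, h2, h3⟩, h4⟩
  have := pick_ne (w j.1) i₀ h2
  rw [h3, h4] at this
  exact this ha

/-- many regular vectors agree with a vector not vanishing at the coordinate `j` -/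
lemma C_large {m U : ℕ} (f : J t × Fin m ↪ (Fin s → ZMod 2)) (hf : ∀ j i, lam (f (j, i)) = j)
    (j : J t) (a : Fin (t j.1) → ZMod 2) (ha : a j.2 ≠ 0) (hU : ∀ g, U ≤ 2 ^ t g) :
    m * U ≤ C hs lam j j.1 a := by
  classical
  obtain ⟨g', h1, -⟩ := third j.1 j.1
  obtain ⟨g'', h2, h3⟩ := third j.1 g'
  have hcard : m * U ≤ (Finset.univ : Finset (Fin m × (Fin (t g') → ZMod 2))).card := by
    rw [Finset.card_univ, Fintype.card_prod, Fintype.card_fin]
    apply Nat.mul_le_mul_left
    simp only [Fintype.card_pi, ZMod.card, Finset.prod_const, Finset.card_univ, Fintype.card_fin]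
    exact hU g'
  refine hcard.trans ?_
  unfold C
  let F : Fin m × (Fin (t g') → ZMod 2) → W t := fun p =>
    Pi.single j.1 a + Pi.single g' p.2 +
      Pi.single g'' (ext g'' (f (j, p.1) - restr hs j.1 a - restr hs g' p.2))
  have hT : ∀ p, T hs (F p) = f (j, p.1) := by
    intro p
    simp only [F]
    rw [T_add, T_add, T_single, T_single, T_single, restr_ext]
    abel
  have hj : ∀ p, F p j.1 = a := by
    intro p
    simp only [F, Pi.add_apply, Pi.single_eq_same, Pi.single_eq_of_ne h1.symm,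
      Pi.single_eq_of_ne h2.symm, add_zero]
  have hg' : ∀ p, F p g' = p.2 := by
    intro p
    simp only [F, Pi.add_apply, Pi.single_eq_same, Pi.single_eq_of_ne h1,
      Pi.single_eq_of_ne h3.symm, add_zero, zero_add]
  apply Finset.card_le_card_of_injOn F
  · intro p _
    simp only [Finset.coe_filter, Finset.mem_univ, true_and]
    refine ⟨⟨j.2, ?_, ?_, ?_⟩, hj p⟩
    · rw [hT, hf]
    · rw [hj]
      exact fun h => ha (by rw [h]; rfl)
    · rw [hj]
      exact pick_eq a j.2 ha
  · intro p _ q _ hpq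
    have e1 : p.2 = q.2 := by rw [← hg' p, ← hg' q, hpq]
    have e2 : f (j, p.1) = f (j, q.1) := by rw [← hT p, ← hT q, hpq]
    have e3 := f.injective e2
    exact Prod.ext (Prod.mk.inj e3).2 e1

lemma pair_card {U : ℕ} (hU : ∀ g, 2 ^ t g ≤ U) (g g' : Fin 3) (hg : g ≠ g')
    (a : Fin (t g) → ZMod 2) (b : Fin (t g') → ZMod 2)
    [DecidablePred fun w : W t => w g = a ∧ w g' = b] :
    (Finset.univ.filter (fun w : W t => w g = a ∧ w g' = b)).card ≤ U := by
  classical
  obtain ⟨g'', h1, h2⟩ := third g g'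
  have h3 : ∀ x : Fin 3, x = g ∨ x = g' ∨ x = g'' := fun x => third_all g g' g'' x hg h1 h2
  have : (Finset.univ : Finset (Fin (t g'') → ZMod 2)).card ≤ U := by
    rw [Finset.card_univ]
    simp only [Fintype.card_pi, ZMod.card, Finset.prod_const, Finset.card_univ, Fintype.card_fin]
    exact hU g''
  refine le_trans ?_ this
  apply Finset.card_le_card_of_injOn (fun w => w g'')
  · intro w _
    simp
  · intro x hx y hy hxy
    simp only [Finset.coe_filter, Finset.mem_univ, true_and] at hx hy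
    funext i
    rcases h3 i with rfl | rfl | rfl
    · rw [hx.1, hy.1]
    · rw [hx.2, hy.2]
    · exact hxy

end

end Q119.DM
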