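import Pool.Agent.Q119.DM.Ineq

set_option autoImplicit false

open Finset

namespace Q119.DM

open SimpleGraph

lemma neg_eq_self {t : Fin 3 → ℕ} (w : W t) : -w = w := by
  funext g i
  simp only [Pi.neg_apply, ZMod.neg_eq_self_mod_two]

lemma sub_symm {t : Fin 3 → ℕ} (x y : W t) : y - x = x - y := by
  rw [← neg_sub, neg_eq_self]

lemma zmod_cases (a : ZMod 2) : a = 0 ∨ a = 1 := by
  revert a
  decide

/-- a degree-monotone path on three vertices, read off from the adjacency relation -/
def Bad {V : Type*} [Fintype V] (G : SimpleGraph V) [DecidableRel G.Adj] (x y z : V) : Prop :=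
  G.Adj x y ∧ G.Adj y z ∧ G.degree x ≤ G.degree y ∧ G.degree y ≤ G.degree z

lemma degree_eq {V : Type*} [Fintype V] (G : SimpleGraph V) [DecidableRel G.Adj] (x : V) :
    G.degree x = (Finset.univ.filter (fun y => G.Adj x y)).card := by
  rw [← card_neighborFinset_eq_degree, neighborFinset_eq_filter]

theorem exists_coloring {t : Fin 3 → ℕ} {s : ℕ} (hs : ∀ g, s ≤ t g)
    (lam : (Fin s → ZMod 2) → J t) {m U L : ℕ} (f : J t × Fin m ↪ (Fin s → ZMod 2))
    (hf : ∀ j i, lam (f (j, i)) = j) (hU : ∀ g, 2 ^ t g ≤ U) (hL : ∀ g, L ≤ 2 ^ t g)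
    (hm : 9 * U < m * L) {n k : ℕ} (hn : n = Fintype.card {v : W t // ∀ g, v g ≠ 0})
    (hk : k = Fintype.card (J t)) :
    ∃ c : TopEdgeLabeling (Fin n) (Fin k), ∀ j x y z, ¬ Bad (c.labelGraph j) x y z := by
  classical
  subst hn
  subst hk
  let e := (Fintype.equivFin {v : W t // ∀ g, v g ≠ 0}).symm
  let e' := Fintype.equivFin (J t)
  let c : TopEdgeLabeling (Fin (Fintype.card {v : W t // ∀ g, v g ≠ 0}))
      (Fin (Fintype.card (J t))) :=
    EdgeLabeling.mk (fun x y _ => e' (sel hs lam ((e x : W t) - (e y : W t)))) (by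
      intro x y _
      beta_reduce
      rw [sub_symm])
  have hadj : ∀ j x y, (c.labelGraph (e' j)).Adj x y ↔
      x ≠ y ∧ sel hs lam ((e x : W t) - (e y : W t)) = j := by
    intro j x y
    rw [TopEdgeLabeling.labelGraph_adj]
    constructor
    · rintro ⟨h, h1⟩
      refine ⟨h, ?_⟩
      rw [EdgeLabeling.get_mk] at h1
      exact e'.injective h1
    · rintro ⟨h, h1⟩
      refine ⟨h, ?_⟩
      rw [EdgeLabeling.get_mk, h1]
  have hdeg : ∀ j x, (c.labelGraph (e' j)).degree x = dg hs lam j (e x) := by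
    intro j x
    rw [degree_eq]
    unfold dg
    apply Finset.card_bij (fun y _ => (e x : W t) - (e y : W t))
    · intro y hy
      simp only [Finset.mem_filter, Finset.mem_univ, true_and] at hy ⊢
      rw [hadj] at hy
      refine ⟨?_, hy.2, ?_⟩
      · intro h
        apply hy.1
        exact e.injective (Subtype.ext (sub_eq_zero.1 h))
      · intro g h
        apply (e y).2 g
        have h1 : (e x : W t) g - (e y : W t) g = (e x : W t) g := h
        exact sub_eq_self.1 h1
    · intro y1 _ y2 _ h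
      exact e.injective (Subtype.ext (sub_right_injective h))
    · intro w hw
      simp only [Finset.mem_filter, Finset.mem_univ, true_and] at hw
      obtain ⟨h1, h2, h3⟩ := hw
      refine ⟨e.symm ⟨(e x : W t) - w, fun g h => h3 g (sub_eq_zero.1 h).symm⟩, ?_, ?_⟩
      · simp only [Finset.mem_filter, Finset.mem_univ, true_and]
        rw [hadj, Equiv.apply_symm_apply]
        refine ⟨?_, ?_⟩
        · intro h
          apply h1
          have h4 := congrArg (fun q => ((e q : W t))) h
          simp only [Equiv.apply_symm_apply] at h4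
          exact (sub_eq_self.1 h4.symm)
        · rw [sub_sub_cancel]
          exact h2
      · rw [Equiv.apply_symm_apply, sub_sub_cancel]
  -- adjacent vertices differ in the coordinate
  have hdiff : ∀ j x y, (c.labelGraph (e' j)).Adj x y →
      (e x : W t) j.1 j.2 ≠ (e y : W t) j.1 j.2 := by
    intro j x y h heq
    rw [hadj] at h
    have hne : (e x : W t) - (e y : W t) ≠ 0 := fun h0 =>
      h.1 (e.injective (Subtype.ext (sub_eq_zero.1 h0)))
    have := sel_ne hs lam _ hne
    rw [h.2] at this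
    apply this
    rw [Pi.sub_apply, Pi.sub_apply, heq, sub_self]
  have hlt : ∀ j x y, (e x : W t) j.1 j.2 ≠ 0 → (e y : W t) j.1 j.2 = 0 →
      (c.labelGraph (e' j)).degree x < (c.labelGraph (e' j)).degree y := by
    intro j x y hx hy
    rw [hdeg, hdeg]
    exact dg_lt hs lam f hf hU hL hm j _ _ (e x).2 (e y).2 hy hx
  refine ⟨c, ?_⟩
  intro j' x y z hbad
  obtain ⟨j, rfl⟩ := e'.surjective j'
  obtain ⟨h1, h2, h3, h4⟩ := hbad
  have d1 := hdiff j x y h1
  have d2 := hdiff j y z h2
  by_cases hy : (e y : W t) j.1 j.2 = 0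
  · have hz : (e z : W t) j.1 j.2 ≠ 0 := fun h => d2 (by rw [hy, h])
    exact absurd (hlt j z y hz hy) (not_lt.2 h4)
  · have hx : (e x : W t) j.1 j.2 = 0 := by
      rcases zmod_cases ((e x : W t) j.1 j.2) with h | h
      · exact h
      · rcases zmod_cases ((e y : W t) j.1 j.2) with h' | h'
        · exact absurd h' hy
        · exact absurd (h.trans h'.symm) d1
    exact absurd (hlt j y x hy hx) (not_lt.2 h3)

lemma card_V (t : Fin 3 → ℕ) :
    Fintype.card {v : W t // ∀ g, v g ≠ 0} = ∏ g, (2 ^ t g - 1) := by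
  classical
  have e : {v : W t // ∀ g, v g ≠ 0} ≃ ((g : Fin 3) → {a : Fin (t g) → ZMod 2 // a ≠ 0}) :=
    Equiv.subtypePiEquivPi (p := fun (g : Fin 3) (a : Fin (t g) → ZMod 2) => a ≠ 0)
  rw [Fintype.card_congr e, Fintype.card_pi]
  apply Finset.prod_congr rfl
  intro g _
  rw [Fintype.card_subtype_compl, Fintype.card_subtype_eq]
  simp [Fintype.card_pi, ZMod.card]

/-- good colourings of `K_n` with `n = (2 ^ a - 1) ^ 2 * (2 ^ (a + r) - 1)` -/
theorem exists_good (a r : ℕ) (hr : r ≤ 2) (ha : 1 ≤ a) (hk : 64 * (3 * a + r) ≤ 2 ^ a) :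
    ∃ c : TopEdgeLabeling (Fin ((2 ^ a - 1) * (2 ^ a - 1) * (2 ^ (a + r) - 1)))
      (Fin (3 * a + r)), ∀ j x y z, ¬ Bad (c.labelGraph j) x y z := by
  classical
  let t : Fin 3 → ℕ := ![a, a, a + r]
  have hcard : Fintype.card (J t) = 3 * a + r := by
    rw [Fintype.card_sigma, Fin.sum_univ_three]
    simp only [Fintype.card_fin, t]
    simp
    ring
  have hs : ∀ g, a ≤ t g := by
    intro g
    fin_cases g <;> simp [t]
  have hs2 : ∀ g, t g ≤ a + 2 := by
    intro g
    fin_cases g <;> simp [t, hr]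
  have hf : Nonempty (J t × Fin 64 ↪ (Fin a → ZMod 2)) := by
    apply Function.Embedding.nonempty_of_card_le
    rw [Fintype.card_prod, hcard, Fintype.card_fin]
    simp only [Fintype.card_pi, ZMod.card, Finset.prod_const, Finset.card_univ, Fintype.card_fin]
    omega
  obtain ⟨f⟩ := hf
  haveI : Nonempty (J t × Fin 64) := ⟨(⟨0, ⟨0, by show 0 < a; omega⟩⟩, 0)⟩
  refine exists_coloring hs (fun τ => (Function.invFun f τ).1) (m := 64) (U := 2 ^ (a + 2))
    (L := 2 ^ a) f ?_ ?_ ?_ ?_ ?_ hcard.symm
  · intro j i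
    beta_reduce
    rw [Function.leftInverse_invFun f.injective]
  · intro g
    exact Nat.pow_le_pow_right (by norm_num) (hs2 g)
  · intro g
    exact Nat.pow_le_pow_right (by norm_num) (hs g)
  · rw [pow_add]
    have : 0 < 2 ^ a := by positivity
    omega
  · rw [card_V, Fin.prod_univ_three]
    rfl

/-- in a colouring without degree-monotone `3`-paths there are at most `2 ^ k` vertices -/
theorem upper {n k : ℕ} (c : TopEdgeLabeling (Fin n) (Fin k))
    (hc : ∀ j, ∀ x y z, x ≠ z → ¬ Bad (c.labelGraph j) x y z) : n ≤ 2 ^ k := by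
  classical
  let lt : Fin k → Fin n → Fin n → Prop := fun j x y =>
    (c.labelGraph j).degree x < (c.labelGraph j).degree y ∨
      ((c.labelGraph j).degree x = (c.labelGraph j).degree y ∧ x < y)
  let low : Fin k → Fin n → Prop := fun j x => ∃ y, (c.labelGraph j).Adj x y ∧ lt j x y
  have key : ∀ j x y, (c.labelGraph j).Adj x y → lt j x y → low j x ∧ ¬ low j y := by
    intro j x y h1 h2
    refine ⟨⟨y, h1, h2⟩, ?_⟩
    rintro ⟨z, h3, h4⟩
    refine hc j x y z ?_ ⟨h1, h3, ?_, ?_⟩
    · rintro rfl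
      rcases h2 with h2 | ⟨h2, h2'⟩
      · rcases h4 with h4 | ⟨h4, _⟩
        · omega
        · omega
      · rcases h4 with h4 | ⟨_, h4'⟩
        · omega
        · exact lt_asymm h2' h4'
    · rcases h2 with h2 | ⟨h2, _⟩
      · exact h2.le
      · exact h2.le
    · rcases h4 with h4 | ⟨h4, _⟩
      · exact h4.le
      · exact h4.le
  let F : Fin n → Fin k → Bool := fun x j => decide (low j x)
  have hF : Function.Injective F := by
    intro x y hxy
    by_contra hne
    let j := c.get x y (by simpa using hne)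
    have hadj : (c.labelGraph j).Adj x y := by
      rw [TopEdgeLabeling.labelGraph_adj]
      exact ⟨hne, rfl⟩
    have h1 : low j x ↔ low j y := by
      have := congrFun hxy j
      simpa [F] using this
    have h2 : lt j x y ∨ lt j y x := by
      rcases lt_trichotomy ((c.labelGraph j).degree x) ((c.labelGraph j).degree y) with h | h | h
      · exact Or.inl (Or.inl h)
      · rcases lt_or_gt_of_ne hne with h' | h'
        · exact Or.inl (Or.inr ⟨h, h'⟩)
        · exact Or.inr (Or.inr ⟨h.symm, h'⟩)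
      · exact Or.inr (Or.inl h)
    rcases h2 with h2 | h2
    · obtain ⟨h3, h4⟩ := key j x y hadj h2
      exact h4 (h1.1 h3)
    · obtain ⟨h3, h4⟩ := key j y x hadj.symm h2
      exact h4 (h1.2 h3)
  have := Fintype.card_le_of_injective F hF
  simpa using this

end Q119.DM
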