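import Pool.Agent.Q119.DM.Constr

set_option autoImplicit false

open Finset

namespace Q119.DM

section

variable {t : Fin 3 → ℕ} {s : ℕ} (hs : ∀ g, s ≤ t g) (lam : (Fin s → ZMod 2) → J t)

open Classical in
/-- number of differences of colour `j` lost at `v` -/
noncomputable def Q (j : J t) (v : W t) : ℕ :=
  (Finset.univ.filter (fun w : W t => sel hs lam w = j ∧ ∃ g, w g = v g)).card

open Classical in
/-- degree of `v` in colour `j` -/
noncomputable def dg (j : J t) (v : W t) : ℕ :=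
  (Finset.univ.filter (fun w : W t => w ≠ 0 ∧ sel hs lam w = j ∧ ∀ g, w g ≠ v g)).card

lemma Q_le (j : J t) (v : W t) (hv : ∀ g, v g ≠ 0) (hvj : v j.1 j.2 = 0) {U : ℕ}
    (hU : ∀ g, 2 ^ t g ≤ U) :
    Q hs lam j v ≤ ∑ g, C hs lam j g (v g) + 6 * U := by
  classical
  let S1 : Fin 3 → Finset (W t) := fun g =>
    Finset.univ.filter (fun w => P hs lam j w ∧ w g = v g)
  let S2 : Fin 3 × Fin 3 → Finset (W t) := fun p =>
    Finset.univ.filter (fun w => w p.1 = v p.1 ∧ w p.2 = 0)
  let O : Finset (Fin 3 × Fin 3) := Finset.univ.filter (fun p => p.1 ≠ p.2)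
  have hO : O.card = 6 := by decide
  have hsub : Finset.univ.filter (fun w : W t => sel hs lam w = j ∧ ∃ g, w g = v g) ⊆
      (Finset.univ.biUnion S1) ∪ (O.biUnion S2) := by
    intro w hw
    simp only [Finset.mem_filter, Finset.mem_univ, true_and] at hw
    obtain ⟨hw1, g, hg⟩ := hw
    rw [Finset.mem_union, Finset.mem_biUnion, Finset.mem_biUnion]
    by_cases h : w (lam (T hs w)).1 ≠ 0
    · left
      refine ⟨g, Finset.mem_univ _, ?_⟩
      simp only [S1, Finset.mem_filter, Finset.mem_univ, true_and]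
      exact ⟨P_of_sel hs lam hw1 h, hg⟩
    · right
      push Not at h
      refine ⟨(g, (lam (T hs w)).1), ?_, ?_⟩
      · simp only [O, Finset.mem_filter, Finset.mem_univ, true_and]
        intro heq
        apply hv g
        rw [← hg, heq, h]
      · simp only [S2, Finset.mem_filter, Finset.mem_univ, true_and]
        exact ⟨hg, h⟩
  have h1 : (Finset.univ.biUnion S1).card ≤ ∑ g, C hs lam j g (v g) := by
    refine Finset.card_biUnion_le.trans ?_
    apply Finset.sum_le_sum
    intro g _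
    exact le_rfl
  have h2 : (O.biUnion S2).card ≤ 6 * U := by
    refine Finset.card_biUnion_le.trans ?_
    calc ∑ p ∈ O, (S2 p).card ≤ ∑ _p ∈ O, U := by
          apply Finset.sum_le_sum
          intro p hp
          simp only [O, Finset.mem_filter, Finset.mem_univ, true_and] at hp
          exact pair_card hU p.1 p.2 hp (v p.1) 0
      _ = 6 * U := by rw [Finset.sum_const, hO, smul_eq_mul]
  unfold Q
  exact (Finset.card_le_card hsub).trans ((Finset.card_union_le _ _).trans (add_le_add h1 h2))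

lemma Q_ge (j : J t) (u : W t) {U : ℕ} (hU : ∀ g, 2 ^ t g ≤ U) :
    ∑ g, C hs lam j g (u g) ≤ Q hs lam j u + 3 * U := by
  classical
  let S1 : Fin 3 → Finset (W t) := fun g =>
    Finset.univ.filter (fun w => P hs lam j w ∧ w g = u g)
  have hsub : S1 0 ∪ S1 1 ∪ S1 2 ⊆
      Finset.univ.filter (fun w : W t => sel hs lam w = j ∧ ∃ g, w g = u g) := by
    intro w hw
    simp only [S1, Finset.mem_union, Finset.mem_filter, Finset.mem_univ, true_and] at hw ⊢
    rcases hw with (hw | hw) | hw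
    · exact ⟨P_sel hs lam hw.1, _, hw.2⟩
    · exact ⟨P_sel hs lam hw.1, _, hw.2⟩
    · exact ⟨P_sel hs lam hw.1, _, hw.2⟩
  have hpair : ∀ g g', g ≠ g' → (S1 g ∩ S1 g').card ≤ U := by
    intro g g' hg
    refine le_trans (Finset.card_le_card ?_) (pair_card hU g g' hg (u g) (u g'))
    intro w hw
    simp only [S1, Finset.mem_inter, Finset.mem_filter, Finset.mem_univ, true_and] at hw ⊢
    exact ⟨hw.1.2, hw.2.2⟩
  have e1 := Finset.card_union_add_card_inter (S1 0) (S1 1)
  have e2 := Finset.card_union_add_card_inter (S1 0 ∪ S1 1) (S1 2)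
  have e3 : ((S1 0 ∪ S1 1) ∩ S1 2).card ≤ U + U := by
    rw [Finset.union_inter_distrib_right]
    exact (Finset.card_union_le _ _).trans
      (add_le_add (hpair 0 2 (by decide)) (hpair 1 2 (by decide)))
  have e4 := hpair 0 1 (by decide)
  have e5 := Finset.card_le_card hsub
  have e6 : ∑ g, C hs lam j g (u g) = (S1 0).card + (S1 1).card + (S1 2).card := by
    rw [Fin.sum_univ_three]
    rfl
  rw [e6]
  unfold Q
  omega

lemma Q_lt {m U L : ℕ} (f : J t × Fin m ↪ (Fin s → ZMod 2)) (hf : ∀ j i, lam (f (j, i)) = j)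
    (hU : ∀ g, 2 ^ t g ≤ U) (hL : ∀ g, L ≤ 2 ^ t g) (hm : 9 * U < m * L)
    (j : J t) (u v : W t) (hv : ∀ g, v g ≠ 0) (hvj : v j.1 j.2 = 0) (huj : u j.1 j.2 ≠ 0) :
    Q hs lam j v < Q hs lam j u := by
  have h1 := Q_le hs lam j v hv hvj hU
  have h2 := Q_ge hs lam j u hU
  have h3 : ∑ g, C hs lam j g (v g) + m * L ≤ ∑ g, C hs lam j g (u g) := by
    have h4 : ∑ g, C hs lam j g (v g) = ∑ g ∈ Finset.univ.erase j.1, C hs lam j g (v g) := by
      rw [← Finset.add_sum_erase Finset.univ _ (Finset.mem_univ j.1),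
        C_zero hs lam j (v j.1) hvj, zero_add]
    have h5 : ∑ g, C hs lam j g (u g) =
        C hs lam j j.1 (u j.1) + ∑ g ∈ Finset.univ.erase j.1, C hs lam j g (u g) :=
      (Finset.add_sum_erase Finset.univ _ (Finset.mem_univ j.1)).symm
    have h6 : ∑ g ∈ Finset.univ.erase j.1, C hs lam j g (v g) =
        ∑ g ∈ Finset.univ.erase j.1, C hs lam j g (u g) := by
      apply Finset.sum_congr rfl
      intro g hg
      exact C_eq hs lam j g (Finset.ne_of_mem_erase hg) _ _
    have h7 := C_large hs lam f hf j (u j.1) huj hL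
    rw [h4, h5, h6]
    omega
  omega

lemma dg_add_Q (j : J t) (v : W t) (hv : ∀ g, v g ≠ 0) [DecidablePred fun w : W t => w ≠ 0 ∧ sel hs lam w = j] :
    dg hs lam j v + Q hs lam j v =
      (Finset.univ.filter (fun w : W t => w ≠ 0 ∧ sel hs lam w = j)).card := by
  classical
  unfold dg Q
  rw [← Finset.card_union_of_disjoint]
  · congr 1
    ext w
    simp only [Finset.mem_union, Finset.mem_filter, Finset.mem_univ, true_and]
    constructor
    · rintro (h | h)
      · exact ⟨h.1, h.2.1⟩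
      · obtain ⟨h1, g, h2⟩ := h
        refine ⟨?_, h1⟩
        rintro rfl
        exact hv g h2.symm
    · rintro ⟨h1, h2⟩
      by_cases h3 : ∃ g, w g = v g
      · exact Or.inr ⟨h2, h3⟩
      · push Not at h3
        exact Or.inl ⟨h1, h2, h3⟩
  · rw [Finset.disjoint_left]
    intro w h1 h2
    simp only [Finset.mem_filter, Finset.mem_univ, true_and] at h1 h2
    obtain ⟨g, hg⟩ := h2.2
    exact h1.2.2 g hg

theorem dg_lt {m U L : ℕ} (f : J t × Fin m ↪ (Fin s → ZMod 2)) (hf : ∀ j i, lam (f (j, i)) = j)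
    (hU : ∀ g, 2 ^ t g ≤ U) (hL : ∀ g, L ≤ 2 ^ t g) (hm : 9 * U < m * L)
    (j : J t) (u v : W t) (hu : ∀ g, u g ≠ 0) (hv : ∀ g, v g ≠ 0) (hvj : v j.1 j.2 = 0)
    (huj : u j.1 j.2 ≠ 0) :
    dg hs lam j u < dg hs lam j v := by
  classical
  have h1 := Q_lt hs lam f hf hU hL hm j u v hv hvj huj
  have h2 := dg_add_Q hs lam j v hv
  have h3 := dg_add_Q hs lam j u hu
  omega

end

end Q119.DM
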